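import Pool.Agent.R564.HL.Zig

set_option autoImplicit false

namespace Pool.Agent.R564.HL

open scoped ENNReal

lemma finish {d S R : ℝ} (hd : 0 < d) (hR : 0 ≤ R) (h : zig.expectedTime (1 / 3) d ≤ ENNReal.ofReal S)
    (hS : 1 / 3 * S ≤ R * d) :
    ENNReal.ofReal (1 / 3) * zig.expectedTime (1 / 3) d ≤ ENNReal.ofReal (R * d) := by
  calc ENNReal.ofReal (1 / 3) * zig.expectedTime (1 / 3) d
      ≤ ENNReal.ofReal (1 / 3) * ENNReal.ofReal S := by gcongr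
    _ = ENNReal.ofReal (1 / 3 * S) := by rw [ENNReal.ofReal_mul (by norm_num)]
    _ ≤ _ := ENNReal.ofReal_le_ofReal hS

lemma use_legs {d : ℝ} (hd : 0 < d) {h : Fin 6 → ℕ} {J : ℕ} {c : Fin 6 → ℝ}
    (hh : StrictMono h) (hJ : h 5 < 6 * J) (hv : ∀ k, zig.Visits d (h k))
    (hc : ∀ k, zig.visitTime d (h k) ≤ c k) (hJd : d < 16 / 27 * (3 / 2) ^ J)
    (hfin : 1 / 3 * ((1 / 3) * c 0 + (1 / 3) * (2 / 3) * c 1 + (1 / 3) * (2 / 3) ^ 2 * c 2 +
        (1 / 3) * (2 / 3) ^ 3 * c 3 + (1 / 3) * (2 / 3) ^ 4 * c 4 + (1 / 3) * (2 / 3) ^ 5 * c 5 +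
        ((1 / 3) * (2 / 3) ^ 6 * (3 * (892 / 189 * (3 / 2) ^ J) + 9 / 5 * d) +
         (1 / 3) * (2 / 3) ^ 7 * (9 / 2 * (892 / 189 * (3 / 2) ^ J) - 9 / 5 * d))) ≤
      3651 / 1000 * d) :
    ENNReal.ofReal (1 / 3) * zig.expectedTime (1 / 3) d ≤ ENNReal.ofReal (3651 / 1000 * d) := by
  refine finish hd (by norm_num) (zig.expectedTime_le (by norm_num) (by norm_num)
    (gg_strictMono hh hJ) (gg_visits hd hv hJd) (gg_le hd hc hJd) (hasSum_aa c _ d)) hfin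

lemma forall_fin6 {P : Fin 6 → Prop} (h0 : P 0) (h1 : P 1) (h2 : P 2) (h3 : P 3) (h4 : P 4)
    (h5 : P 5) : ∀ k, P k := by
  intro k
  fin_cases k <;> assumption

lemma strictMono_fin6 {h : Fin 6 → ℕ} (h0 : h 0 < h 1) (h1 : h 1 < h 2) (h2 : h 2 < h 3)
    (h3 : h 3 < h 4) (h4 : h 4 < h 5) : StrictMono h := by
  rw [Fin.strictMono_iff_lt_succ]
  intro i
  fin_cases i <;> assumption

/-- the point `d` is in the part covered three times at once -/
lemma regionA {m : ℕ} {d : ℝ} (h1 : (3 / 2) ^ m < d) (h2 : d < 8 / 7 * (3 / 2) ^ m) :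
    ENNReal.ofReal (1 / 3) * zig.expectedTime (1 / 3) d ≤ ENNReal.ofReal (3651 / 1000 * d) := by
  have hX : (0:ℝ) < (3 / 2) ^ m := by positivity
  have hd : 0 < d := hX.trans h1
  have x1 : ((3:ℝ) / 2) ^ (m + 1) = 3 / 2 * (3 / 2) ^ m := by rw [pow_succ]; ring
  have x2 : ((3:ℝ) / 2) ^ (m + 2) = 9 / 4 * (3 / 2) ^ m := by rw [pow_add]; ring
  have x3 : ((3:ℝ) / 2) ^ (m + 3) = 27 / 8 * (3 / 2) ^ m := by rw [pow_add]; ring
  have T1 := ar0_le (m + 1)
  have T2 := ar0_le (m + 2)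
  have T3 := ar0_le (m + 3)
  rw [x1] at T1
  rw [x2] at T2
  rw [x3] at T3
  set X : ℝ := (3 / 2) ^ m with hXdef
  refine use_legs hd (J := m + 3)
    (h := ![6 * (m + 1), 6 * (m + 1) + 1, 6 * (m + 1) + 2, 6 * (m + 1) + 3, 6 * (m + 2),
      6 * (m + 2) + 5])
    (c := ![892 / 189 * (3 / 2 * X) + d, 892 / 189 * (3 / 2 * X) + 16 / 7 * X - d,
      892 / 189 * (3 / 2 * X) + 2 / 7 * X + d, 892 / 189 * (3 / 2 * X) + 23 / 7 * X - d,
      892 / 189 * (9 / 4 * X) + d, 892 / 189 * (27 / 8 * X) - d])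
    (strictMono_fin6 ?_ ?_ ?_ ?_ ?_) ?_ (forall_fin6 ?_ ?_ ?_ ?_ ?_ ?_)
    (forall_fin6 ?_ ?_ ?_ ?_ ?_ ?_) ?_ ?_
  · show 6 * (m + 1) < 6 * (m + 1) + 1
    omega
  · show 6 * (m + 1) + 1 < 6 * (m + 1) + 2
    omega
  · show 6 * (m + 1) + 2 < 6 * (m + 1) + 3
    omega
  · show 6 * (m + 1) + 3 < 6 * (m + 2)
    omega
  · show 6 * (m + 2) < 6 * (m + 2) + 5
    omega
  · show 6 * (m + 2) + 5 < 6 * (m + 3)
    omega
  · show zig.Visits d (6 * (m + 1))
    left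
    rw [zig_t, zig_t, tt0, tt1, x1]
    exact ⟨hd, by linarith⟩
  · show zig.Visits d (6 * (m + 1) + 1)
    right
    rw [zig_t, zig_t, tt1, show 6 * (m + 1) + 1 + 1 = 6 * (m + 1) + 2 by ring, tt2, x1]
    exact ⟨by linarith, by linarith⟩
  · show zig.Visits d (6 * (m + 1) + 2)
    left
    rw [zig_t, zig_t, tt2, show 6 * (m + 1) + 2 + 1 = 6 * (m + 1) + 3 by ring, tt3, x1]
    exact ⟨by linarith, by linarith⟩
  · show zig.Visits d (6 * (m + 1) + 3)
    right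
    rw [zig_t, zig_t, tt3, show 6 * (m + 1) + 3 + 1 = 6 * (m + 1) + 4 by ring, tt4, x1]
    exact ⟨by linarith, by linarith⟩
  · show zig.Visits d (6 * (m + 2))
    left
    rw [zig_t, zig_t, tt0, tt1, x2]
    exact ⟨hd, by linarith⟩
  · show zig.Visits d (6 * (m + 2) + 5)
    right
    rw [zig_t, zig_t, tt5, show 6 * (m + 2) + 5 + 1 = 6 * (m + 2) + 6 by ring, tt6, x2]
    exact ⟨by linarith, by linarith⟩
  · show zig.visitTime d (6 * (m + 1)) ≤ 892 / 189 * (3 / 2 * X) + d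
    rw [v0 hd]
    linarith
  · show zig.visitTime d (6 * (m + 1) + 1) ≤ 892 / 189 * (3 / 2 * X) + 16 / 7 * X - d
    unfold Trajectory.visitTime
    rw [zig_t, tt1, ar1, x1, abs_of_neg (by linarith)]
    linarith
  · show zig.visitTime d (6 * (m + 1) + 2) ≤ 892 / 189 * (3 / 2 * X) + 2 / 7 * X + d
    unfold Trajectory.visitTime
    rw [zig_t, tt2, ar2, x1, abs_of_pos (by linarith)]
    linarith
  · show zig.visitTime d (6 * (m + 1) + 3) ≤ 892 / 189 * (3 / 2 * X) + 23 / 7 * X - d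
    unfold Trajectory.visitTime
    rw [zig_t, tt3, ar3, x1, abs_of_neg (by linarith)]
    linarith
  · show zig.visitTime d (6 * (m + 2)) ≤ 892 / 189 * (9 / 4 * X) + d
    rw [v0 hd]
    linarith
  · show zig.visitTime d (6 * (m + 2) + 5) ≤ 892 / 189 * (27 / 8 * X) - d
    rw [v5 _ (by rw [x2]; linarith)]
    rw [show 6 * (m + 2 + 1) = 6 * (m + 3) by ring]
    linarith
  · rw [x3]
    linarith
  · rw [x3]
    simp only [Matrix.cons_val]
    linarith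

/-- the point `d` is in the part covered three times one round later -/
lemma regionB {m : ℕ} {d : ℝ} (h1 : 8 / 7 * (3 / 2) ^ m < d) (h2 : d < 4 / 3 * (3 / 2) ^ m) :
    ENNReal.ofReal (1 / 3) * zig.expectedTime (1 / 3) d ≤ ENNReal.ofReal (3651 / 1000 * d) := by
  have hX : (0:ℝ) < (3 / 2) ^ m := by positivity
  have hd : 0 < d := by linarith
  have x1 : ((3:ℝ) / 2) ^ (m + 1) = 3 / 2 * (3 / 2) ^ m := by rw [pow_succ]; ring
  have x2 : ((3:ℝ) / 2) ^ (m + 2) = 9 / 4 * (3 / 2) ^ m := by rw [pow_add]; ring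
  have x3 : ((3:ℝ) / 2) ^ (m + 3) = 27 / 8 * (3 / 2) ^ m := by rw [pow_add]; ring
  have T1 := ar0_le (m + 1)
  have T2 := ar0_le (m + 2)
  have T3 := ar0_le (m + 3)
  rw [x1] at T1
  rw [x2] at T2
  rw [x3] at T3
  set X : ℝ := (3 / 2) ^ m with hXdef
  refine use_legs hd (J := m + 3)
    (h := ![6 * (m + 1) + 2, 6 * (m + 1) + 3, 6 * (m + 2), 6 * (m + 2) + 3, 6 * (m + 2) + 4,
      6 * (m + 2) + 5])
    (c := ![892 / 189 * (3 / 2 * X) + 2 / 7 * X + d, 892 / 189 * (3 / 2 * X) + 23 / 7 * X - d,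
      892 / 189 * (9 / 4 * X) + d, 892 / 189 * (9 / 4 * X) + 69 / 14 * X - d,
      892 / 189 * (9 / 4 * X) + 37 / 14 * X + d, 892 / 189 * (27 / 8 * X) - d])
    (strictMono_fin6 ?_ ?_ ?_ ?_ ?_) ?_ (forall_fin6 ?_ ?_ ?_ ?_ ?_ ?_)
    (forall_fin6 ?_ ?_ ?_ ?_ ?_ ?_) ?_ ?_
  · show 6 * (m + 1) + 2 < 6 * (m + 1) + 3
    omega
  · show 6 * (m + 1) + 3 < 6 * (m + 2)
    omega
  · show 6 * (m + 2) < 6 * (m + 2) + 3
    omega
  · show 6 * (m + 2) + 3 < 6 * (m + 2) + 4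
    omega
  · show 6 * (m + 2) + 4 < 6 * (m + 2) + 5
    omega
  · show 6 * (m + 2) + 5 < 6 * (m + 3)
    omega
  · show zig.Visits d (6 * (m + 1) + 2)
    left
    rw [zig_t, zig_t, tt2, show 6 * (m + 1) + 2 + 1 = 6 * (m + 1) + 3 by ring, tt3, x1]
    exact ⟨by linarith, by linarith⟩
  · show zig.Visits d (6 * (m + 1) + 3)
    right
    rw [zig_t, zig_t, tt3, show 6 * (m + 1) + 3 + 1 = 6 * (m + 1) + 4 by ring, tt4, x1]
    exact ⟨by linarith, by linarith⟩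
  · show zig.Visits d (6 * (m + 2))
    left
    rw [zig_t, zig_t, tt0, tt1, x2]
    exact ⟨hd, by linarith⟩
  · show zig.Visits d (6 * (m + 2) + 3)
    right
    rw [zig_t, zig_t, tt3, show 6 * (m + 2) + 3 + 1 = 6 * (m + 2) + 4 by ring, tt4, x2]
    exact ⟨by linarith, by linarith⟩
  · show zig.Visits d (6 * (m + 2) + 4)
    left
    rw [zig_t, zig_t, tt4, show 6 * (m + 2) + 4 + 1 = 6 * (m + 2) + 5 by ring, tt5, x2]
    exact ⟨by linarith, by linarith⟩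
  · show zig.Visits d (6 * (m + 2) + 5)
    right
    rw [zig_t, zig_t, tt5, show 6 * (m + 2) + 5 + 1 = 6 * (m + 2) + 6 by ring, tt6, x2]
    exact ⟨by linarith, by linarith⟩
  · show zig.visitTime d (6 * (m + 1) + 2) ≤ 892 / 189 * (3 / 2 * X) + 2 / 7 * X + d
    unfold Trajectory.visitTime
    rw [zig_t, tt2, ar2, x1, abs_of_pos (by linarith)]
    linarith
  · show zig.visitTime d (6 * (m + 1) + 3) ≤ 892 / 189 * (3 / 2 * X) + 23 / 7 * X - d
    unfold Trajectory.visitTime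
    rw [zig_t, tt3, ar3, x1, abs_of_neg (by linarith)]
    linarith
  · show zig.visitTime d (6 * (m + 2)) ≤ 892 / 189 * (9 / 4 * X) + d
    rw [v0 hd]
    linarith
  · show zig.visitTime d (6 * (m + 2) + 3) ≤ 892 / 189 * (9 / 4 * X) + 69 / 14 * X - d
    unfold Trajectory.visitTime
    rw [zig_t, tt3, ar3, x2, abs_of_neg (by linarith)]
    linarith
  · show zig.visitTime d (6 * (m + 2) + 4) ≤ 892 / 189 * (9 / 4 * X) + 37 / 14 * X + d
    unfold Trajectory.visitTime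
    rw [zig_t, tt4, ar4, x2, abs_of_pos (by linarith)]
    linarith
  · show zig.visitTime d (6 * (m + 2) + 5) ≤ 892 / 189 * (27 / 8 * X) - d
    rw [v5 _ (by rw [x2]; linarith)]
    rw [show 6 * (m + 2 + 1) = 6 * (m + 3) by ring]
    linarith
  · rw [x3]
    linarith
  · rw [x3]
    simp only [Matrix.cons_val]
    linarith

/-- the point `d` is in the part that is always covered once in every direction -/
lemma regionC {m : ℕ} {d : ℝ} (h1 : 4 / 3 * (3 / 2) ^ m < d) (h2 : d < (3 / 2) ^ (m + 1)) :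
    ENNReal.ofReal (1 / 3) * zig.expectedTime (1 / 3) d ≤ ENNReal.ofReal (3651 / 1000 * d) := by
  have hX : (0:ℝ) < (3 / 2) ^ m := by positivity
  have hd : 0 < d := by linarith
  have x1 : ((3:ℝ) / 2) ^ (m + 1) = 3 / 2 * (3 / 2) ^ m := by rw [pow_succ]; ring
  have x2 : ((3:ℝ) / 2) ^ (m + 2) = 9 / 4 * (3 / 2) ^ m := by rw [pow_add]; ring
  have x3 : ((3:ℝ) / 2) ^ (m + 3) = 27 / 8 * (3 / 2) ^ m := by rw [pow_add]; ring
  have x4 : ((3:ℝ) / 2) ^ (m + 4) = 81 / 16 * (3 / 2) ^ m := by rw [pow_add]; ring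
  have T1 := ar0_le (m + 1)
  have T2 := ar0_le (m + 2)
  have T3 := ar0_le (m + 3)
  have T4 := ar0_le (m + 4)
  rw [x1] at T1 h2
  rw [x2] at T2
  rw [x3] at T3
  rw [x4] at T4
  set X : ℝ := (3 / 2) ^ m with hXdef
  refine use_legs hd (J := m + 4)
    (h := ![6 * (m + 1) + 2, 6 * (m + 1) + 3, 6 * (m + 2), 6 * (m + 2) + 3, 6 * (m + 3),
      6 * (m + 3) + 5])
    (c := ![892 / 189 * (3 / 2 * X) + 2 / 7 * X + d, 892 / 189 * (3 / 2 * X) + 23 / 7 * X - d,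
      892 / 189 * (9 / 4 * X) + d, 892 / 189 * (9 / 4 * X) + 69 / 14 * X - d,
      892 / 189 * (27 / 8 * X) + d, 892 / 189 * (81 / 16 * X) - d])
    (strictMono_fin6 ?_ ?_ ?_ ?_ ?_) ?_ (forall_fin6 ?_ ?_ ?_ ?_ ?_ ?_)
    (forall_fin6 ?_ ?_ ?_ ?_ ?_ ?_) ?_ ?_
  · show 6 * (m + 1) + 2 < 6 * (m + 1) + 3
    omega
  · show 6 * (m + 1) + 3 < 6 * (m + 2)
    omega
  · show 6 * (m + 2) < 6 * (m + 2) + 3
    omega
  · show 6 * (m + 2) + 3 < 6 * (m + 3)
    omega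
  · show 6 * (m + 3) < 6 * (m + 3) + 5
    omega
  · show 6 * (m + 3) + 5 < 6 * (m + 4)
    omega
  · show zig.Visits d (6 * (m + 1) + 2)
    left
    rw [zig_t, zig_t, tt2, show 6 * (m + 1) + 2 + 1 = 6 * (m + 1) + 3 by ring, tt3, x1]
    exact ⟨by linarith, by linarith⟩
  · show zig.Visits d (6 * (m + 1) + 3)
    right
    rw [zig_t, zig_t, tt3, show 6 * (m + 1) + 3 + 1 = 6 * (m + 1) + 4 by ring, tt4, x1]
    exact ⟨by linarith, by linarith⟩
  · show zig.Visits d (6 * (m + 2))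
    left
    rw [zig_t, zig_t, tt0, tt1, x2]
    exact ⟨hd, by linarith⟩
  · show zig.Visits d (6 * (m + 2) + 3)
    right
    rw [zig_t, zig_t, tt3, show 6 * (m + 2) + 3 + 1 = 6 * (m + 2) + 4 by ring, tt4, x2]
    exact ⟨by linarith, by linarith⟩
  · show zig.Visits d (6 * (m + 3))
    left
    rw [zig_t, zig_t, tt0, tt1, x3]
    exact ⟨hd, by linarith⟩
  · show zig.Visits d (6 * (m + 3) + 5)
    right
    rw [zig_t, zig_t, tt5, show 6 * (m + 3) + 5 + 1 = 6 * (m + 3) + 6 by ring, tt6, x3]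
    exact ⟨by linarith, by linarith⟩
  · show zig.visitTime d (6 * (m + 1) + 2) ≤ 892 / 189 * (3 / 2 * X) + 2 / 7 * X + d
    unfold Trajectory.visitTime
    rw [zig_t, tt2, ar2, x1, abs_of_pos (by linarith)]
    linarith
  · show zig.visitTime d (6 * (m + 1) + 3) ≤ 892 / 189 * (3 / 2 * X) + 23 / 7 * X - d
    unfold Trajectory.visitTime
    rw [zig_t, tt3, ar3, x1, abs_of_neg (by linarith)]
    linarith
  · show zig.visitTime d (6 * (m + 2)) ≤ 892 / 189 * (9 / 4 * X) + d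
    rw [v0 hd]
    linarith
  · show zig.visitTime d (6 * (m + 2) + 3) ≤ 892 / 189 * (9 / 4 * X) + 69 / 14 * X - d
    unfold Trajectory.visitTime
    rw [zig_t, tt3, ar3, x2, abs_of_neg (by linarith)]
    linarith
  · show zig.visitTime d (6 * (m + 3)) ≤ 892 / 189 * (27 / 8 * X) + d
    rw [v0 hd]
    linarith
  · show zig.visitTime d (6 * (m + 3) + 5) ≤ 892 / 189 * (81 / 16 * X) - d
    rw [v5 _ (by rw [x3]; linarith)]
    rw [show 6 * (m + 3 + 1) = 6 * (m + 4) by ring]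
    linarith
  · rw [x4]
    linarith
  · rw [x4]
    simp only [Matrix.cons_val]
    linarith

lemma turnX (m : ℕ) :
    ENNReal.ofReal (1 / 3) * zig.expectedTime (1 / 3) ((3 / 2) ^ m) ≤
      ENNReal.ofReal (3651 / 1000 * (3 / 2) ^ m) := by
  have hX : (0:ℝ) < (3 / 2) ^ m := by positivity
  have hv : zig.Visits ((3 / 2) ^ m) (6 * m + 2) := by
    left
    rw [zig_t, zig_t, tt2, show 6 * m + 2 + 1 = 6 * m + 3 by ring, tt3]
    exact ⟨by linarith, le_rfl⟩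
  have ht : zig.t (6 * m + 2 + 1) = (3 / 2) ^ m := by
    rw [zig_t, show 6 * m + 2 + 1 = 6 * m + 3 by ring, tt3]
  refine finish hX (by norm_num) (zig.expectedTime_turn (by norm_num) (by norm_num) hv ht) ?_
  rw [show 6 * m + 2 + 1 = 6 * m + 3 by ring, ar3]
  linarith [ar0_le m]

lemma turnK (m : ℕ) :
    ENNReal.ofReal (1 / 3) * zig.expectedTime (1 / 3) (8 / 7 * (3 / 2) ^ m) ≤
      ENNReal.ofReal (3651 / 1000 * (8 / 7 * (3 / 2) ^ m)) := by
  have hX : (0:ℝ) < (3 / 2) ^ m := by positivity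
  have x1 : ((3:ℝ) / 2) ^ (m + 1) = 3 / 2 * (3 / 2) ^ m := by rw [pow_succ]; ring
  have ht : zig.t (6 * (m + 1) + 1) = 8 / 7 * (3 / 2) ^ m := by
    rw [zig_t, tt1, x1]; ring
  have hv : zig.Visits (8 / 7 * (3 / 2) ^ m) (6 * (m + 1)) := by
    left
    rw [ht, zig_t, tt0]
    exact ⟨by positivity, le_rfl⟩
  refine finish (by positivity) (by norm_num)
    (zig.expectedTime_turn (by norm_num) (by norm_num) hv ht) ?_
  have := ar0_le (m + 1)
  rw [ar1]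
  rw [x1] at this ⊢
  linarith

lemma turnM (m : ℕ) :
    ENNReal.ofReal (1 / 3) * zig.expectedTime (1 / 3) (4 / 3 * (3 / 2) ^ m) ≤
      ENNReal.ofReal (3651 / 1000 * (4 / 3 * (3 / 2) ^ m)) := by
  have hX : (0:ℝ) < (3 / 2) ^ m := by positivity
  have x2 : ((3:ℝ) / 2) ^ (m + 2) = 9 / 4 * (3 / 2) ^ m := by rw [pow_add]; ring
  have ht : zig.t (6 * (m + 2) + 4 + 1) = 4 / 3 * (3 / 2) ^ m := by
    rw [zig_t, show 6 * (m + 2) + 4 + 1 = 6 * (m + 2) + 5 by ring, tt5, x2]; ring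
  have hv : zig.Visits (4 / 3 * (3 / 2) ^ m) (6 * (m + 2) + 4) := by
    left
    rw [ht, zig_t, tt4, x2]
    exact ⟨by linarith, le_rfl⟩
  refine finish (by positivity) (by norm_num)
    (zig.expectedTime_turn (by norm_num) (by norm_num) hv ht) ?_
  have := ar0_le (m + 2)
  rw [show 6 * (m + 2) + 4 + 1 = 6 * (m + 2) + 5 by ring, ar5]
  rw [x2] at this ⊢
  linarith

/-- The competitive ratio of `zig` for `p = 1/3` is at most `3.651`. -/
theorem zig_ratio : zig.ratio (1 / 3) ≤ ENNReal.ofReal (3651 / 1000) := by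
  apply Trajectory.ratio_le _ _ (by norm_num)
  intro d hd
  obtain ⟨m, h1, h2⟩ := exists_nat_pow_near hd (show (1:ℝ) < 3 / 2 by norm_num)
  rcases h1.eq_or_lt with h1 | h1
  · rw [← h1]; exact turnX m
  rcases lt_trichotomy d (8 / 7 * (3 / 2) ^ m) with h3 | h3 | h3
  · exact regionA h1 h3
  · rw [h3]; exact turnK m
  rcases lt_trichotomy d (4 / 3 * (3 / 2) ^ m) with h4 | h4 | h4
  · exact regionB h3 h4
  · rw [h4]; exact turnM m
  · exact regionC h4 h2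

end Pool.Agent.R564.HL
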