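import Mathlib

/-!
# Probabilistically faulty search on the half-line: definitions
-/

set_option autoImplicit false

namespace Pool.Agent.R564.HL

open scoped ENNReal

/-- A trajectory of a searcher on the half-line `[0, ∞)` is the sequence `t 0 = 0, t 1, t 2, …` of
its turning points: all of them are nonnegative, the searcher moves outward from `t (2 i)` to
`t (2 i + 1)` and inward from `t (2 i + 1)` to `t (2 i + 2)`, at unit speed. -/
structure Trajectory where
  /-- the turning points -/
  t : ℕ → ℝ
  zero : t 0 = 0
  nonneg : ∀ i, 0 ≤ t i
  outward : ∀ i, t (2 * i) < t (2 * i + 1)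
  inward : ∀ i, t (2 * i + 2) < t (2 * i + 1)

namespace Trajectory

variable (T : Trajectory)

/-- The time at which the searcher is at the turning point number `j`, that is the total length
of the first `j` legs. -/
noncomputable def arrival (j : ℕ) : ℝ :=
  ∑ i ∈ Finset.range j, |T.t (i + 1) - T.t i|

/-- Leg number `j`, the motion from `t j` to `t (j + 1)`, passes over the point `d`: the point lies
strictly between the two turning points, or it is the turning point `t (j + 1)` at the end of
the leg (so that a turn exactly at `d` is one pass over `d`). -/
def Visits (d : ℝ) (j : ℕ) : Prop :=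
  (T.t j < d ∧ d ≤ T.t (j + 1)) ∨ (T.t (j + 1) ≤ d ∧ d < T.t j)

/-- The time at which the searcher is at `d` during the leg number `j`. -/
noncomputable def visitTime (d : ℝ) (j : ℕ) : ℝ :=
  T.arrival j + |d - T.t j|

open Classical in
/-- The number of passes over `d` before the leg number `j`. -/
noncomputable def passesBefore (d : ℝ) (j : ℕ) : ℕ :=
  Nat.count (T.Visits d) j

/-- The time of the pass number `i` over `d`; the passes are numbered `0, 1, 2, …`, so this is
`f_{i+1}` in the notation of the problem. It is `∞` if there are at most `i` passes over `d`.
(The infimum is over the at most one leg which is the pass number `i`.) -/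
noncomputable def passTime (d : ℝ) (i : ℕ) : ℝ≥0∞ :=
  ⨅ (j : ℕ) (_ : T.Visits d j ∧ T.passesBefore d j = i), ENNReal.ofReal (T.visitTime d j)

open Classical in
/-- The probability of detection at the pass number `i` over `d`: it is `1` if the searcher
changes direction at `d` at this pass, and `p` otherwise. -/
noncomputable def detection (p d : ℝ) (i : ℕ) : ℝ :=
  if ∃ j, T.Visits d j ∧ T.passesBefore d j = i ∧ T.t (j + 1) = d then 1 else p

/-- The expected time of the first detection of a treasure at `d`: the detection happens at the
pass number `i` with probability `(∏ k < i, (1 - detection k)) * detection i`. If `d` is no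
turning point this is `∑ i, p (1 - p) ^ i * passTime d i`. -/
noncomputable def expectedTime (p d : ℝ) : ℝ≥0∞ :=
  ∑' i : ℕ, ENNReal.ofReal
    ((∏ k ∈ Finset.range i, (1 - T.detection p d k)) * T.detection p d i) * T.passTime d i

/-- The competitive ratio `sup_{d ≥ 1} p E(d) / d` of the trajectory. -/
noncomputable def ratio (p : ℝ) : ℝ≥0∞ :=
  ⨆ (d : ℝ) (_ : 1 ≤ d), ENNReal.ofReal p * T.expectedTime p d / ENNReal.ofReal d

end Trajectory

end Pool.Agent.R564.HL
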