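import Pool.Agent.R564.HL.Defs

set_option autoImplicit false

namespace Pool.Agent.R564.HL

open scoped ENNReal

namespace Trajectory

variable (T : Trajectory)

lemma arrival_zero : T.arrival 0 = 0 := by simp [arrival]

lemma arrival_succ (j : ℕ) : T.arrival (j + 1) = T.arrival j + |T.t (j + 1) - T.t j| := by
  simp [arrival, Finset.sum_range_succ]

lemma arrival_mono : Monotone T.arrival := by
  apply monotone_nat_of_le_succ
  intro j
  rw [arrival_succ]
  linarith [abs_nonneg (T.t (j + 1) - T.t j)]

lemma arrival_nonneg (j : ℕ) : 0 ≤ T.arrival j := by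
  have := T.arrival_mono (Nat.zero_le j)
  rwa [arrival_zero] at this

lemma visitTime_nonneg (d : ℝ) (j : ℕ) : 0 ≤ T.visitTime d j := by
  unfold visitTime
  linarith [T.arrival_nonneg j, abs_nonneg (d - T.t j)]

lemma visitTime_le {d : ℝ} {j : ℕ} (h : T.Visits d j) : T.visitTime d j ≤ T.arrival (j + 1) := by
  unfold visitTime
  rw [arrival_succ]
  rcases h with ⟨h1, h2⟩ | ⟨h1, h2⟩
  · rw [abs_of_pos (by linarith), abs_of_pos (by linarith)]
    linarith
  · rw [abs_of_neg (by linarith), abs_of_neg (by linarith)]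
    linarith

lemma visitTime_turn {d : ℝ} {j : ℕ} (h : T.t (j + 1) = d) :
    T.visitTime d j = T.arrival (j + 1) := by
  unfold visitTime
  rw [arrival_succ, h]

lemma visitTime_mono {d : ℝ} {i j : ℕ} (hi : T.Visits d i) (hij : i ≤ j) :
    T.visitTime d i ≤ T.visitTime d j := by
  rcases hij.eq_or_lt with rfl | hlt
  · exact le_rfl
  · have h1 := T.visitTime_le hi
    have h2 := T.arrival_mono (show i + 1 ≤ j from hlt)
    have h3 : T.arrival j ≤ T.visitTime d j := by
      unfold visitTime
      linarith [abs_nonneg (d - T.t j)]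
    linarith

lemma passesBefore_succ_of {d : ℝ} {j : ℕ} (h : T.Visits d j) :
    T.passesBefore d (j + 1) = T.passesBefore d j + 1 := by
  classical
  unfold passesBefore
  rw [Nat.count_succ]
  simp [h]

lemma passesBefore_succ_of_not {d : ℝ} {j : ℕ} (h : ¬ T.Visits d j) :
    T.passesBefore d (j + 1) = T.passesBefore d j := by
  classical
  unfold passesBefore
  rw [Nat.count_succ]
  simp [h]

lemma passesBefore_mono (d : ℝ) : Monotone (T.passesBefore d) := by
  apply monotone_nat_of_le_succ
  intro j
  by_cases h : T.Visits d j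
  · rw [T.passesBefore_succ_of h]; omega
  · rw [T.passesBefore_succ_of_not h]

lemma passesBefore_zero (d : ℝ) : T.passesBefore d 0 = 0 := by
  classical
  simp [passesBefore]

/-- if there are more than `i` passes before leg `N`, the pass number `i` exists before leg `N` -/
lemma exists_pass {d : ℝ} {i N : ℕ} (h : i < T.passesBefore d N) :
    ∃ j < N, T.Visits d j ∧ T.passesBefore d j = i := by
  induction N with
  | zero => rw [passesBefore_zero] at h; omega
  | succ N ih =>
    by_cases hN : i < T.passesBefore d N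
    · obtain ⟨j, hj, hh⟩ := ih hN
      exact ⟨j, by omega, hh⟩
    · by_cases hv : T.Visits d N
      · rw [T.passesBefore_succ_of hv] at h
        exact ⟨N, by omega, hv, by omega⟩
      · rw [T.passesBefore_succ_of_not hv] at h
        exact absurd h hN

lemma pass_unique {d : ℝ} {j k : ℕ} (hj : T.Visits d j) (hk : T.Visits d k)
    (h : T.passesBefore d j = T.passesBefore d k) : j = k := by
  by_contra hne
  rcases Nat.lt_or_gt_of_ne hne with hlt | hlt
  · have h1 := T.passesBefore_mono d (show j + 1 ≤ k from hlt)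
    rw [T.passesBefore_succ_of hj] at h1
    omega
  · have h1 := T.passesBefore_mono d (show k + 1 ≤ j from hlt)
    rw [T.passesBefore_succ_of hk] at h1
    omega

lemma passTime_eq {d : ℝ} {j : ℕ} (hj : T.Visits d j) :
    T.passTime d (T.passesBefore d j) = ENNReal.ofReal (T.visitTime d j) := by
  unfold passTime
  apply le_antisymm
  · exact iInf₂_le j ⟨hj, rfl⟩
  · refine le_iInf₂ fun k hk => ?_
    have := T.pass_unique hj hk.1 hk.2.symm
    rw [this]

lemma passTime_eq' {d : ℝ} {i j : ℕ} (hj : T.Visits d j) (hi : T.passesBefore d j = i) :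
    T.passTime d i = ENNReal.ofReal (T.visitTime d j) := by
  rw [← hi]; exact T.passTime_eq hj

lemma count_of_strictMono {d : ℝ} {g : ℕ → ℕ} (hg : StrictMono g) (hv : ∀ i, T.Visits d (g i))
    (i : ℕ) : i ≤ T.passesBefore d (g i) := by
  induction i with
  | zero => exact Nat.zero_le _
  | succ i ih =>
    have h1 := T.passesBefore_mono d (show g i + 1 ≤ g (i + 1) from hg (Nat.lt_succ_self i))
    rw [T.passesBefore_succ_of (hv i)] at h1
    omega

/-- If the legs `g 0 < g 1 < …` pass over `d`, the pass number `i` is not later than `g i`. -/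
lemma passTime_le {d : ℝ} {g : ℕ → ℕ} (hg : StrictMono g) (hv : ∀ i, T.Visits d (g i))
    (i : ℕ) : T.passTime d i ≤ ENNReal.ofReal (T.visitTime d (g i)) := by
  have h1 := T.count_of_strictMono hg hv i
  have h2 : i < T.passesBefore d (g i + 1) := by
    rw [T.passesBefore_succ_of (hv i)]; omega
  obtain ⟨j, hj, hjv, hji⟩ := T.exists_pass h2
  rw [T.passTime_eq' hjv hji]
  exact ENNReal.ofReal_le_ofReal (T.visitTime_mono hjv (by omega))

lemma detection_mem (p d : ℝ) (i : ℕ) : T.detection p d i = 1 ∨ T.detection p d i = p := by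
  unfold detection
  split_ifs
  · exact Or.inl rfl
  · exact Or.inr rfl

end Trajectory

/-- weights of the first success -/
noncomputable def wt (π : ℕ → ℝ) (i : ℕ) : ℝ := (∏ k ∈ Finset.range i, (1 - π k)) * π i

lemma sum_wt (π : ℕ → ℝ) (n : ℕ) :
    ∑ i ∈ Finset.range n, wt π i = 1 - ∏ k ∈ Finset.range n, (1 - π k) := by
  induction n with
  | zero => simp
  | succ n ih =>
    rw [Finset.sum_range_succ, ih, Finset.prod_range_succ]
    unfold wt
    ring

lemma wt_nonneg {π : ℕ → ℝ} (h0 : ∀ i, 0 ≤ π i) (h1 : ∀ i, π i ≤ 1) (i : ℕ) : 0 ≤ wt π i :=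
  mul_nonneg (Finset.prod_nonneg fun k _ => by linarith [h1 k]) (h0 i)

lemma wt_const (p : ℝ) (π : ℕ → ℝ) (i : ℕ) (h : ∀ k ≤ i, π k = p) :
    wt π i = p * (1 - p) ^ i := by
  unfold wt
  rw [Finset.prod_congr rfl (fun k hk => by rw [h k (Finset.mem_range.1 hk).le])]
  rw [Finset.prod_const, Finset.card_range, h i le_rfl]
  ring

lemma wt_zero_of (π : ℕ → ℝ) (i k : ℕ) (hk : k < i) (h : π k = 1) : wt π i = 0 := by
  unfold wt
  rw [Finset.prod_eq_zero (Finset.mem_range.2 hk) (by rw [h]; ring)]
  ring

lemma tsum_geo {p : ℝ} (hp0 : 0 < p) (hp1 : p < 1) :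
    ∑' i : ℕ, ENNReal.ofReal (p * (1 - p) ^ i) = 1 := by
  have h1 : HasSum (fun i : ℕ => p * (1 - p) ^ i) 1 := by
    have := (hasSum_geometric_of_lt_one (show (0:ℝ) ≤ 1 - p by linarith)
      (show 1 - p < 1 by linarith)).mul_left p
    have h2 : p * (1 - (1 - p))⁻¹ = 1 := by
      field_simp; ring_nf; field_simp
    rwa [h2] at this
  rw [← ENNReal.ofReal_tsum_of_nonneg (fun i => by
    have : (0:ℝ) ≤ 1 - p := by linarith
    positivity) h1.summable, h1.tsum_eq]
  simp

/-- Certain detection at some pass only helps. -/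
lemma tsum_wt_le {p : ℝ} (hp0 : 0 < p) (hp1 : p < 1) {π : ℕ → ℝ} (hπ : ∀ i, π i = 1 ∨ π i = p)
    {F : ℕ → ℝ≥0∞} (hF : Monotone F) :
    ∑' i : ℕ, ENNReal.ofReal (wt π i) * F i ≤
      ∑' i : ℕ, ENNReal.ofReal (p * (1 - p) ^ i) * F i := by
  classical
  by_cases hex : ∃ i, π i = 1
  · set N := Nat.find hex with hN
    have hN1 : π N = 1 := Nat.find_spec hex
    have hlt : ∀ k < N, π k = p := fun k hk => (hπ k).resolve_left (Nat.find_min hex hk)
    have h1 : ∑' i : ℕ, ENNReal.ofReal (wt π i) * F i =
        ∑ i ∈ Finset.range (N + 1), ENNReal.ofReal (wt π i) * F i := by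
      apply tsum_eq_sum
      intro i hi
      rw [Finset.mem_range, not_lt] at hi
      rw [wt_zero_of π i N (by omega) hN1]
      simp
    rw [h1, Finset.sum_range_succ]
    have h2 : ∑' i : ℕ, ENNReal.ofReal (p * (1 - p) ^ i) * F i =
        ∑ i ∈ Finset.range N, ENNReal.ofReal (p * (1 - p) ^ i) * F i +
        ∑' i : ℕ, ENNReal.ofReal (p * (1 - p) ^ (i + N)) * F (i + N) :=
      (ENNReal.summable.sum_add_tsum_nat_add' (f := fun i : ℕ =>
        ENNReal.ofReal (p * (1 - p) ^ i) * F i)).symm
    rw [h2]
    apply add_le_add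
    · apply le_of_eq
      apply Finset.sum_congr rfl
      intro i hi
      rw [wt_const p π i (fun k hk => hlt k (lt_of_le_of_lt hk (Finset.mem_range.1 hi)))]
    · have h3 : wt π N = (1 - p) ^ N := by
        unfold wt
        rw [Finset.prod_congr rfl (fun k hk => by rw [hlt k (Finset.mem_range.1 hk)])]
        rw [Finset.prod_const, Finset.card_range, hN1]
        ring
      rw [h3]
      calc ENNReal.ofReal ((1 - p) ^ N) * F N
          = ENNReal.ofReal ((1 - p) ^ N) * F N * ∑' i : ℕ, ENNReal.ofReal (p * (1 - p) ^ i) := by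
            rw [tsum_geo hp0 hp1, mul_one]
        _ = ∑' i : ℕ, ENNReal.ofReal ((1 - p) ^ N) * F N * ENNReal.ofReal (p * (1 - p) ^ i) := by
            rw [ENNReal.tsum_mul_left]
        _ ≤ _ := by
            apply ENNReal.tsum_le_tsum
            intro i
            have hq : (0:ℝ) ≤ 1 - p := by linarith
            calc ENNReal.ofReal ((1 - p) ^ N) * F N * ENNReal.ofReal (p * (1 - p) ^ i)
                = (ENNReal.ofReal ((1 - p) ^ N) * ENNReal.ofReal (p * (1 - p) ^ i)) * F N := by ring
              _ = ENNReal.ofReal (p * (1 - p) ^ (i + N)) * F N := by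
                  rw [← ENNReal.ofReal_mul (by positivity)]
                  congr 2
                  rw [pow_add]; ring
              _ ≤ _ := by
                  gcongr
                  exact hF (by omega)
  · push Not at hex
    apply le_of_eq
    congr 1
    funext i
    rw [wt_const p π i (fun k _ => (hπ k).resolve_left (hex k))]

namespace Trajectory

variable (T : Trajectory)

lemma expectedTime_eq (p d : ℝ) : T.expectedTime p d =
    ∑' i : ℕ, ENNReal.ofReal (wt (T.detection p d) i) * T.passTime d i := rfl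

/-- Upper bound for the expected time from infinitely many passes. -/
lemma expectedTime_le {p d : ℝ} (hp0 : 0 < p) (hp1 : p < 1) {g : ℕ → ℕ} (hg : StrictMono g)
    (hv : ∀ i, T.Visits d (g i)) {a : ℕ → ℝ} {S : ℝ} (ha : ∀ i, T.visitTime d (g i) ≤ a i)
    (hS : HasSum (fun i : ℕ => p * (1 - p) ^ i * a i) S) :
    T.expectedTime p d ≤ ENNReal.ofReal S := by
  have hq : (0:ℝ) ≤ 1 - p := by linarith
  rw [expectedTime_eq]
  calc ∑' i : ℕ, ENNReal.ofReal (wt (T.detection p d) i) * T.passTime d i
      ≤ ∑' i : ℕ, ENNReal.ofReal (wt (T.detection p d) i) *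
          ENNReal.ofReal (T.visitTime d (g i)) := by
        apply ENNReal.tsum_le_tsum
        intro i
        gcongr
        exact T.passTime_le hg hv i
    _ ≤ ∑' i : ℕ, ENNReal.ofReal (p * (1 - p) ^ i) * ENNReal.ofReal (T.visitTime d (g i)) := by
        apply tsum_wt_le hp0 hp1 (T.detection_mem p d)
        intro i j hij
        exact ENNReal.ofReal_le_ofReal (T.visitTime_mono (hv i) (hg.monotone hij))
    _ ≤ ∑' i : ℕ, ENNReal.ofReal (p * (1 - p) ^ i * a i) := by
        apply ENNReal.tsum_le_tsum
        intro i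
        rw [← ENNReal.ofReal_mul (by positivity)]
        apply ENNReal.ofReal_le_ofReal
        apply mul_le_mul_of_nonneg_left (ha i) (by positivity)
    _ = ENNReal.ofReal S := by
        rw [← ENNReal.ofReal_tsum_of_nonneg _ hS.summable, hS.tsum_eq]
        intro i
        have := (T.visitTime_nonneg d (g i)).trans (ha i)
        positivity

/-- If the searcher turns at `d` at the end of leg `j`, the expected time is at most the time of
this turn. -/
lemma expectedTime_turn {p d : ℝ} (hp0 : 0 < p) (hp1 : p < 1) {j : ℕ} (hv : T.Visits d j)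
    (ht : T.t (j + 1) = d) : T.expectedTime p d ≤ ENNReal.ofReal (T.arrival (j + 1)) := by
  set N := T.passesBefore d j with hN
  have hdet : T.detection p d N = 1 := by
    unfold detection
    rw [if_pos ⟨j, hv, rfl, ht⟩]
  have h0 : ∀ i, 0 ≤ T.detection p d i := fun i => by
    rcases T.detection_mem p d i with h | h <;> rw [h] <;> linarith
  have h1 : ∀ i, T.detection p d i ≤ 1 := fun i => by
    rcases T.detection_mem p d i with h | h <;> rw [h]
    exact hp1.le
  rw [expectedTime_eq]
  have e1 : ∑' i : ℕ, ENNReal.ofReal (wt (T.detection p d) i) * T.passTime d i =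
      ∑ i ∈ Finset.range (N + 1), ENNReal.ofReal (wt (T.detection p d) i) * T.passTime d i := by
    apply tsum_eq_sum
    intro i hi
    rw [Finset.mem_range, not_lt] at hi
    rw [wt_zero_of _ i N (by omega) hdet]
    simp
  rw [e1]
  calc ∑ i ∈ Finset.range (N + 1), ENNReal.ofReal (wt (T.detection p d) i) * T.passTime d i
      ≤ ∑ i ∈ Finset.range (N + 1), ENNReal.ofReal (wt (T.detection p d) i) *
          ENNReal.ofReal (T.arrival (j + 1)) := by
        apply Finset.sum_le_sum
        intro i hi
        gcongr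
        have h2 : i < T.passesBefore d (j + 1) := by
          rw [T.passesBefore_succ_of hv]
          exact Finset.mem_range.1 hi
        obtain ⟨k, hk, hkv, hki⟩ := T.exists_pass h2
        rw [T.passTime_eq' hkv hki]
        apply ENNReal.ofReal_le_ofReal
        calc T.visitTime d k ≤ T.visitTime d j := T.visitTime_mono hkv (by omega)
          _ = _ := T.visitTime_turn ht
    _ = (∑ i ∈ Finset.range (N + 1), ENNReal.ofReal (wt (T.detection p d) i)) *
          ENNReal.ofReal (T.arrival (j + 1)) := by
        rw [Finset.sum_mul]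
    _ ≤ 1 * ENNReal.ofReal (T.arrival (j + 1)) := by
        gcongr
        rw [← ENNReal.ofReal_sum_of_nonneg (fun i _ => wt_nonneg h0 h1 i), sum_wt]
        rw [← ENNReal.ofReal_one]
        apply ENNReal.ofReal_le_ofReal
        have : 0 ≤ ∏ k ∈ Finset.range (N + 1), (1 - T.detection p d k) :=
          Finset.prod_nonneg fun k _ => by linarith [h1 k]
        linarith
    _ = _ := one_mul _

lemma ratio_le {p R : ℝ} (h : ∀ d : ℝ, 1 ≤ d → ENNReal.ofReal p * T.expectedTime p d ≤
    ENNReal.ofReal (R * d)) (hR : 0 ≤ R) : T.ratio p ≤ ENNReal.ofReal R := by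
  unfold ratio
  refine iSup₂_le fun d hd => ?_
  have hd0 : 0 < d := by linarith
  rw [ENNReal.div_le_iff_le_mul (Or.inl (by simpa using hd0)) (Or.inl ENNReal.ofReal_ne_top)]
  rw [← ENNReal.ofReal_mul hR]
  exact h d hd

end Trajectory

end Pool.Agent.R564.HL
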