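import Pool.Agent.R564.HL.Gen

set_option autoImplicit false

/-!
# A trajectory with ratio below `4 - p` for `p = 1/3`

Round number `i` goes to `x_i = (3/2)^i`. On the way out the searcher covers the first part
`(x_{i-1}, 8/7 x_{i-1})` of the new territory three times, and on the way back it covers
`(8/7 x_{i-2}, 4/3 x_{i-2})` three times.
-/

namespace Pool.Agent.R564.HL

open scoped ENNReal

/-- turning points of one round, as multiples of `(3/2)^i` -/
noncomputable def uu (c : ℕ) : ℝ :=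
  if c = 0 then 0 else if c = 1 then 16 / 21 else if c = 2 then 2 / 3 else if c = 3 then 1
  else if c = 4 then 32 / 63 else 16 / 27

/-- the turning points of the trajectory -/
noncomputable def tt (n : ℕ) : ℝ := uu (n % 6) * (3 / 2) ^ (n / 6)

lemma tt0 (i : ℕ) : tt (6 * i) = 0 := by
  unfold tt
  rw [show 6 * i % 6 = 0 by omega]
  simp [uu]

lemma tt1 (i : ℕ) : tt (6 * i + 1) = 16 / 21 * (3 / 2) ^ i := by
  unfold tt
  rw [show (6 * i + 1) % 6 = 1 by omega, show (6 * i + 1) / 6 = i by omega]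
  simp [uu]

lemma tt2 (i : ℕ) : tt (6 * i + 2) = 2 / 3 * (3 / 2) ^ i := by
  unfold tt
  rw [show (6 * i + 2) % 6 = 2 by omega, show (6 * i + 2) / 6 = i by omega]
  simp [uu]

lemma tt3 (i : ℕ) : tt (6 * i + 3) = (3 / 2) ^ i := by
  unfold tt
  rw [show (6 * i + 3) % 6 = 3 by omega, show (6 * i + 3) / 6 = i by omega]
  simp [uu]

lemma tt4 (i : ℕ) : tt (6 * i + 4) = 32 / 63 * (3 / 2) ^ i := by
  unfold tt
  rw [show (6 * i + 4) % 6 = 4 by omega, show (6 * i + 4) / 6 = i by omega]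
  simp [uu]

lemma tt5 (i : ℕ) : tt (6 * i + 5) = 16 / 27 * (3 / 2) ^ i := by
  unfold tt
  rw [show (6 * i + 5) % 6 = 5 by omega, show (6 * i + 5) / 6 = i by omega]
  simp [uu]

lemma tt6 (i : ℕ) : tt (6 * i + 6) = 0 := by
  have := tt0 (i + 1)
  rwa [show 6 * (i + 1) = 6 * i + 6 by ring] at this

lemma tt_cases (n : ℕ) : ∃ i, n = 6 * i ∨ n = 6 * i + 1 ∨ n = 6 * i + 2 ∨ n = 6 * i + 3 ∨
    n = 6 * i + 4 ∨ n = 6 * i + 5 := ⟨n / 6, by omega⟩

/-- the trajectory -/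
noncomputable def zig : Trajectory where
  t := tt
  zero := by simpa using tt0 0
  nonneg := by
    intro n
    obtain ⟨i, h⟩ := tt_cases n
    have hx : (0:ℝ) < (3 / 2) ^ i := by positivity
    rcases h with rfl | rfl | rfl | rfl | rfl | rfl
    · rw [tt0]
    · rw [tt1]; positivity
    · rw [tt2]; positivity
    · rw [tt3]; positivity
    · rw [tt4]; positivity
    · rw [tt5]; positivity
  outward := by
    intro n
    obtain ⟨i, h⟩ : ∃ i, n = 3 * i ∨ n = 3 * i + 1 ∨ n = 3 * i + 2 := ⟨n / 3, by omega⟩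
    have hx : (0:ℝ) < (3 / 2) ^ i := by positivity
    rcases h with rfl | rfl | rfl
    · rw [show 2 * (3 * i) = 6 * i by ring, tt0, tt1]; positivity
    · rw [show 2 * (3 * i + 1) = 6 * i + 2 by ring, tt2, show 6 * i + 2 + 1 = 6 * i + 3 by ring, tt3]
      linarith
    · rw [show 2 * (3 * i + 2) = 6 * i + 4 by ring, tt4, show 6 * i + 4 + 1 = 6 * i + 5 by ring, tt5]
      linarith
  inward := by
    intro n
    obtain ⟨i, h⟩ : ∃ i, n = 3 * i ∨ n = 3 * i + 1 ∨ n = 3 * i + 2 := ⟨n / 3, by omega⟩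
    have hx : (0:ℝ) < (3 / 2) ^ i := by positivity
    rcases h with rfl | rfl | rfl
    · rw [show 2 * (3 * i) + 2 = 6 * i + 2 by ring, show 2 * (3 * i) + 1 = 6 * i + 1 by ring,
        tt2, tt1]
      linarith
    · rw [show 2 * (3 * i + 1) + 2 = 6 * i + 4 by ring, show 2 * (3 * i + 1) + 1 = 6 * i + 3 by ring,
        tt4, tt3]
      linarith
    · rw [show 2 * (3 * i + 2) + 2 = 6 * i + 6 by ring, show 2 * (3 * i + 2) + 1 = 6 * i + 5 by ring,
        tt6, tt5]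
      positivity

@[simp] lemma zig_t (n : ℕ) : zig.t n = tt n := rfl

lemma ar1 (i : ℕ) : zig.arrival (6 * i + 1) = zig.arrival (6 * i) + 16 / 21 * (3 / 2) ^ i := by
  rw [Trajectory.arrival_succ, zig_t, zig_t, tt1, tt0, sub_zero, abs_of_nonneg (by positivity)]

lemma ar2 (i : ℕ) : zig.arrival (6 * i + 2) = zig.arrival (6 * i) + 18 / 21 * (3 / 2) ^ i := by
  have hx : (0:ℝ) < (3 / 2) ^ i := by positivity
  rw [show 6 * i + 2 = (6 * i + 1) + 1 by ring, Trajectory.arrival_succ, zig_t, zig_t,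
    show 6 * i + 1 + 1 = 6 * i + 2 by ring, tt2, tt1, ar1, abs_of_neg (by linarith)]
  ring

lemma ar3 (i : ℕ) : zig.arrival (6 * i + 3) = zig.arrival (6 * i) + 25 / 21 * (3 / 2) ^ i := by
  have hx : (0:ℝ) < (3 / 2) ^ i := by positivity
  rw [show 6 * i + 3 = (6 * i + 2) + 1 by ring, Trajectory.arrival_succ, zig_t, zig_t,
    show 6 * i + 2 + 1 = 6 * i + 3 by ring, tt3, tt2, ar2, abs_of_pos (by linarith)]
  ring

lemma ar4 (i : ℕ) : zig.arrival (6 * i + 4) = zig.arrival (6 * i) + 106 / 63 * (3 / 2) ^ i := by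
  have hx : (0:ℝ) < (3 / 2) ^ i := by positivity
  rw [show 6 * i + 4 = (6 * i + 3) + 1 by ring, Trajectory.arrival_succ, zig_t, zig_t,
    show 6 * i + 3 + 1 = 6 * i + 4 by ring, tt4, tt3, ar3, abs_of_neg (by linarith)]
  ring

lemma ar5 (i : ℕ) : zig.arrival (6 * i + 5) = zig.arrival (6 * i) + 334 / 189 * (3 / 2) ^ i := by
  have hx : (0:ℝ) < (3 / 2) ^ i := by positivity
  rw [show 6 * i + 5 = (6 * i + 4) + 1 by ring, Trajectory.arrival_succ, zig_t, zig_t,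
    show 6 * i + 4 + 1 = 6 * i + 5 by ring, tt5, tt4, ar4, abs_of_pos (by linarith)]
  ring

lemma ar6 (i : ℕ) : zig.arrival (6 * (i + 1)) = zig.arrival (6 * i) + 446 / 189 * (3 / 2) ^ i := by
  have hx : (0:ℝ) < (3 / 2) ^ i := by positivity
  rw [show 6 * (i + 1) = (6 * i + 5) + 1 by ring, Trajectory.arrival_succ, zig_t, zig_t,
    show 6 * i + 5 + 1 = 6 * i + 6 by ring, tt6, tt5, ar5, abs_of_neg (by linarith)]
  ring

lemma ar0 (i : ℕ) : zig.arrival (6 * i) = 892 / 189 * ((3 / 2) ^ i - 1) := by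
  induction i with
  | zero => simp [Trajectory.arrival_zero]
  | succ i ih =>
    rw [ar6, ih, pow_succ]
    ring

lemma ar0_le (i : ℕ) : zig.arrival (6 * i) ≤ 892 / 189 * (3 / 2) ^ i := by
  rw [ar0]; linarith

/-! visit times -/

lemma v0 {d : ℝ} (hd : 0 < d) (i : ℕ) : zig.visitTime d (6 * i) = zig.arrival (6 * i) + d := by
  unfold Trajectory.visitTime
  rw [zig_t, tt0, sub_zero, abs_of_pos hd]

lemma v5 {d : ℝ} (i : ℕ) (h : d ≤ 16 / 27 * (3 / 2) ^ i) :
    zig.visitTime d (6 * i + 5) = zig.arrival (6 * (i + 1)) - d := by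
  unfold Trajectory.visitTime
  rw [zig_t, tt5, abs_of_nonpos (by linarith), ar5, ar6]
  ring

/-- leg choice with six special legs and then two legs per round, from round `J` on -/
def gg (h : Fin 6 → ℕ) (J : ℕ) (i : ℕ) : ℕ :=
  if hi : i < 6 then h ⟨i, hi⟩ else 6 * (J + (i - 6) / 2) + 5 * ((i - 6) % 2)

lemma gg_strictMono {h : Fin 6 → ℕ} {J : ℕ} (hh : StrictMono h) (hJ : h 5 < 6 * J) :
    StrictMono (gg h J) := by
  apply strictMono_nat_of_lt_succ
  intro i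
  unfold gg
  by_cases h1 : i + 1 < 6
  · have h2 : i < 6 := by omega
    rw [dif_pos h1, dif_pos h2]
    apply hh
    simp [Fin.lt_def]
  · by_cases h2 : i < 6
    · rw [dif_neg h1, dif_pos h2]
      have h3 : i = 5 := by omega
      subst h3
      calc h ⟨5, h2⟩ = h 5 := rfl
        _ < 6 * J := hJ
        _ ≤ _ := by omega
    · rw [dif_neg h1, dif_neg h2]
      omega

lemma gg_visits {h : Fin 6 → ℕ} {J : ℕ} {d : ℝ} (hd : 0 < d) (hh : ∀ k, zig.Visits d (h k))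
    (hJ : d < 16 / 27 * (3 / 2) ^ J) (i : ℕ) : zig.Visits d (gg h J i) := by
  unfold gg
  by_cases h1 : i < 6
  · rw [dif_pos h1]; exact hh _
  · rw [dif_neg h1]
    obtain ⟨k, hk⟩ : ∃ k, i - 6 = 2 * k ∨ i - 6 = 2 * k + 1 := ⟨(i - 6) / 2, by omega⟩
    have h2 : d < 16 / 27 * (3 / 2) ^ (J + k) := by
      refine lt_of_lt_of_le hJ ?_
      gcongr
      · norm_num
      · omega
    have hx : (0:ℝ) < (3 / 2) ^ (J + k) := by positivity
    rcases hk with hk | hk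
    · rw [hk, show 6 * (J + 2 * k / 2) + 5 * (2 * k % 2) = 6 * (J + k) by omega]
      left
      rw [zig_t, zig_t, tt0, tt1]
      exact ⟨hd, by linarith⟩
    · rw [hk, show 6 * (J + (2 * k + 1) / 2) + 5 * ((2 * k + 1) % 2) = 6 * (J + k) + 5 by omega]
      right
      rw [zig_t, zig_t, tt5, show 6 * (J + k) + 5 + 1 = 6 * (J + k) + 6 by ring, tt6]
      exact ⟨hd.le, h2⟩

/-- upper bounds for the visit times -/
noncomputable def aa (c : Fin 6 → ℝ) (Y d : ℝ) (i : ℕ) : ℝ :=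
  if hi : i < 6 then c ⟨i, hi⟩ else
    if (i - 6) % 2 = 0 then 892 / 189 * (Y * (3 / 2) ^ ((i - 6) / 2)) + d
    else 892 / 189 * (Y * (3 / 2) ^ ((i - 6) / 2 + 1)) - d

lemma gg_le {h : Fin 6 → ℕ} {J : ℕ} {d : ℝ} {c : Fin 6 → ℝ} (hd : 0 < d)
    (hh : ∀ k, zig.visitTime d (h k) ≤ c k)
    (hJ : d < 16 / 27 * (3 / 2) ^ J) (i : ℕ) :
    zig.visitTime d (gg h J i) ≤ aa c ((3 / 2) ^ J) d i := by
  unfold gg aa
  by_cases h1 : i < 6
  · rw [dif_pos h1, dif_pos h1]; exact hh _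
  · rw [dif_neg h1, dif_neg h1]
    obtain ⟨k, hk⟩ : ∃ k, i - 6 = 2 * k ∨ i - 6 = 2 * k + 1 := ⟨(i - 6) / 2, by omega⟩
    have h2 : d < 16 / 27 * (3 / 2) ^ (J + k) := by
      refine lt_of_lt_of_le hJ ?_
      gcongr
      · norm_num
      · omega
    rcases hk with hk | hk
    · rw [hk, show 6 * (J + 2 * k / 2) + 5 * (2 * k % 2) = 6 * (J + k) by omega, v0 hd,
        if_pos (by omega), show 2 * k / 2 = k by omega, ← pow_add]
      linarith [ar0_le (J + k)]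
    · rw [hk, show 6 * (J + (2 * k + 1) / 2) + 5 * ((2 * k + 1) % 2) = 6 * (J + k) + 5 by omega,
        v5 _ h2.le, if_neg (by omega), show (2 * k + 1) / 2 = k by omega, ← pow_add]
      have := ar0_le (J + k + 1)
      rw [show J + (k + 1) = J + k + 1 by ring]
      linarith

lemma hasSum_aa (c : Fin 6 → ℝ) (Y d : ℝ) :
    HasSum (fun i : ℕ => (1 / 3 : ℝ) * (1 - 1 / 3) ^ i * aa c Y d i)
      ((1 / 3) * c 0 + (1 / 3) * (2 / 3) * c 1 + (1 / 3) * (2 / 3) ^ 2 * c 2 +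
        (1 / 3) * (2 / 3) ^ 3 * c 3 + (1 / 3) * (2 / 3) ^ 4 * c 4 + (1 / 3) * (2 / 3) ^ 5 * c 5 +
        ((1 / 3) * (2 / 3) ^ 6 * (3 * (892 / 189 * Y) + 9 / 5 * d) +
         (1 / 3) * (2 / 3) ^ 7 * (9 / 2 * (892 / 189 * Y) - 9 / 5 * d))) := by
  have g1 : HasSum (fun k : ℕ => (2 / 3 : ℝ) ^ k) 3 := by
    have := hasSum_geometric_of_lt_one (show (0:ℝ) ≤ 2 / 3 by norm_num) (by norm_num)
    norm_num at this
    exact this
  have g2 : HasSum (fun k : ℕ => (4 / 9 : ℝ) ^ k) (9 / 5) := by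
    have := hasSum_geometric_of_lt_one (show (0:ℝ) ≤ 4 / 9 by norm_num) (by norm_num)
    norm_num at this
    exact this
  have e : ∀ k : ℕ, (4 / 9 : ℝ) ^ k * (3 / 2) ^ k = (2 / 3) ^ k := by
    intro k
    rw [← mul_pow]; norm_num
  have e2 : ∀ k : ℕ, (2 / 3 : ℝ) ^ (2 * k) = (4 / 9) ^ k := by
    intro k
    rw [pow_mul]; norm_num
  have h1 : HasSum (fun k : ℕ => (1 / 3 : ℝ) * (1 - 1 / 3) ^ (2 * k + 6) * aa c Y d (2 * k + 6))
      ((1 / 3) * (2 / 3) ^ 6 * (3 * (892 / 189 * Y) + 9 / 5 * d)) := by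
    have := ((g1.mul_right (892 / 189 * Y)).add (g2.mul_right d)).mul_left
      ((1 / 3 : ℝ) * (2 / 3) ^ 6)
    refine this.congr_fun ?_ |> fun h => h
    intro k
    unfold aa
    rw [dif_neg (by omega), if_pos (by omega), show (2 * k + 6 - 6) / 2 = k by omega, ← e k,
      pow_add, show (1 - 1 / 3 : ℝ) = 2 / 3 by norm_num, e2 k]
    ring
  have h2 : HasSum (fun k : ℕ => (1 / 3 : ℝ) * (1 - 1 / 3) ^ (2 * k + 1 + 6) *
      aa c Y d (2 * k + 1 + 6))
      ((1 / 3) * (2 / 3) ^ 7 * (9 / 2 * (892 / 189 * Y) - 9 / 5 * d)) := by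
    have := ((g1.mul_right (3 / 2 * (892 / 189 * Y))).sub (g2.mul_right d)).mul_left
      ((1 / 3 : ℝ) * (2 / 3) ^ 7)
    rw [show (9 / 2 * (892 / 189 * Y) - 9 / 5 * d) =
      (3 * (3 / 2 * (892 / 189 * Y)) - 9 / 5 * d) by ring]
    refine this.congr_fun ?_ |> fun h => h
    intro k
    unfold aa
    rw [dif_neg (by omega), if_neg (by omega), show (2 * k + 1 + 6 - 6) / 2 = k by omega, ← e k,
      show 2 * k + 1 + 6 = 2 * k + 7 by ring,
      pow_add, show (1 - 1 / 3 : ℝ) = 2 / 3 by norm_num, e2 k, pow_succ (3 / 2 : ℝ) k]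
    ring
  have h3 := HasSum.even_add_odd (f := fun i : ℕ => (1 / 3 : ℝ) * (1 - 1 / 3) ^ (i + 6) *
    aa c Y d (i + 6)) h1 h2
  have h4 := (hasSum_nat_add_iff 6 (f := fun i : ℕ => (1 / 3 : ℝ) * (1 - 1 / 3) ^ i *
    aa c Y d i)).1 h3
  refine (h4.congr_fun fun _ => rfl) |> fun h => ?_
  rw [Finset.sum_range_succ, Finset.sum_range_succ, Finset.sum_range_succ, Finset.sum_range_succ,
    Finset.sum_range_succ, Finset.sum_range_succ, Finset.sum_range_zero] at h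
  have a0 : aa c Y d 0 = c 0 := by unfold aa; rw [dif_pos (by norm_num)]; rfl
  have a1 : aa c Y d 1 = c 1 := by unfold aa; rw [dif_pos (by norm_num)]; rfl
  have a2 : aa c Y d 2 = c 2 := by unfold aa; rw [dif_pos (by norm_num)]; rfl
  have a3 : aa c Y d 3 = c 3 := by unfold aa; rw [dif_pos (by norm_num)]; rfl
  have a4 : aa c Y d 4 = c 4 := by unfold aa; rw [dif_pos (by norm_num)]; rfl
  have a5 : aa c Y d 5 = c 5 := by unfold aa; rw [dif_pos (by norm_num)]; rfl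
  rw [a0, a1, a2, a3, a4, a5] at h
  have hs : ∀ {f : ℕ → ℝ} {a b : ℝ}, HasSum f a → a = b → HasSum f b := by
    intro f a b h1 h2; rwa [← h2]
  refine hs h ?_
  ring

end Pool.Agent.R564.HL
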